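import Mathlib
import Pool.Agent.Lib.MP_20db89_co.Defs
import Pool.Agent.Lib.MP_20db89_co.Interval
import Pool.Agent.Lib.MP_20db89_co.AK.Defs
import Pool.Agent.Lib.MP_20db89_co.Pure

set_option autoImplicit false

/-!
For every Coxeter system `(W, S)` with `S` finite, every Coxeter element `c` and every `k`, the
order complexes of the interval `[e, c]_k` of the `k`-intermediate order and of the interval
`[e, c]_{ak}` of the `k`-absolute order are pure and shellable.

First interval: it is identified with a family of subsets of `S` ordered by inclusion, and
labelling the step `J → J ∪ {s}` by `s` gives a lexicographic shelling.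

Second interval: the maximal chains are the factorizations `c = t_1 ⋯ t_n` into reflections
`t_i ∈ T_k`. The roots of `W` have coordinates in a fusion ring (a ring with a positive basis,
containing all `2 cos (π / m_st)`); unfolding along the basis attaches to every factorization an
exceptional sequence of representations of a quiver (transitivity of the Hurwitz action and
mutations). The lemma of Happel and Ringel (a nonzero map in an exceptional pair of bricks is
injective or surjective) shows that a pair `t_i, t_j`, `i < j`, with nonzero Hom can be made
adjacent by commutations, and that one of its two Hurwitz moves then replaces a reflection by a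
shorter one, so the move stays in `T_k`. Factorizations without such pairs are unique up to
commutation. Ordering the maximal chains by the sum of the lengths of their letters, then by the
set of letters, then lexicographically for a suitable numbering of the letters, gives a shelling.
-/

namespace Pool.Agent.Results.MP_20db89_co.BothIntervalsShellable

open Pool.Agent.Lib.MP_20db89_co

/-- `(W, S)` is a Coxeter system, `ω` lists every element of `S` exactly once, and
`c = cs.wordProd ω` is the corresponding Coxeter element. -/
theorem result {W : Type*} [Group W] (S : Set W) [Finite S] (M : CoxeterMatrix S)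
    (cs : CoxeterSystem M W) (hS : ∀ s : S, cs.simple s = (s : W))
    (ω : List S) (hnodup : ω.Nodup) (hall : ∀ s : S, s ∈ ω) (k : ℕ) :
    -- the `k`-intermediate order
    ((interInterval cs k 1 (cs.wordProd ω)).Finite ∧
      Shellable (orderComplex (interLE cs k) (interInterval cs k 1 (cs.wordProd ω))) ∧
      ∀ F : Finset W, IsFacet (orderComplex (interLE cs k) (interInterval cs k 1 (cs.wordProd ω))) F →
        F.card = ω.length + 1) ∧
    -- the `k`-absolute order
    ((absInterval cs k 1 (cs.wordProd ω)).Finite ∧
      Shellable (orderComplex (absLE cs k) (absInterval cs k 1 (cs.wordProd ω))) ∧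
      ∀ F : Finset W, IsFacet (orderComplex (absLE cs k) (absInterval cs k 1 (cs.wordProd ω))) F →
        F.card = ω.length + 1) ∧
    -- the minimum in the definition of `ℓ_k` is attained, and `absLE` is a partial order on the
    -- interval
    (∀ w : W, absPath cs k (absLen cs k w) 1 w) ∧
    ((∀ x ∈ absInterval cs k 1 (cs.wordProd ω), absLE cs k x x) ∧
      (∀ x ∈ absInterval cs k 1 (cs.wordProd ω), ∀ y ∈ absInterval cs k 1 (cs.wordProd ω),
        absLE cs k x y → absLE cs k y x → x = y) ∧
      (∀ x ∈ absInterval cs k 1 (cs.wordProd ω), ∀ y ∈ absInterval cs k 1 (cs.wordProd ω),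
        ∀ z ∈ absInterval cs k 1 (cs.wordProd ω),
        absLE cs k x y → absLE cs k y z → absLE cs k x z)) := by
  classical
  have hinj : Function.Injective cs.simple := by
    intro a b h
    rw [hS, hS] at h
    exact Subtype.ext h
  refine ⟨?_, ?_, ?_⟩
  · haveI : Fintype S := Fintype.ofFinite S
    let idx : S → ℕ := fun s => ω.idxOf s
    have hidxinj : Function.Injective idx := by
      intro a b h
      exact (List.idxOf_inj (hall a)).1 h
    letI : LinearOrder S := LinearOrder.lift' (fun s => OrderDual.toDual (idx s))
      (fun a b h => hidxinj (OrderDual.toDual.injective h))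
    have hord : ∀ a b : S, a ≤ b ↔ idx b ≤ idx a := fun a b => Iff.rfl
    have hidx : ∀ (A C : List S) (s : S), ω = A ++ s :: C → ∀ b ∈ A, idx b < idx s := by
      intro A C s he b hb
      have hs : s ∉ A := by
        intro h
        rw [he, List.nodup_append] at hnodup
        exact hnodup.2.2 s h s (by simp) rfl
      show ω.idxOf b < ω.idxOf s
      rw [he, List.idxOf_append_of_mem hb, List.idxOf_append_of_notMem hs]
      have := List.idxOf_lt_length_of_mem hb
      omega
    refine ⟨?_, interval_shellable cs hnodup hall hinj hidx hord k,
      interval_pure cs hnodup hall hinj hidx hord k⟩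
    rw [interval_eq cs hnodup hall hinj hidx k]
    exact (Set.toFinite _).image _
  · obtain ⟨h1, -, h3⟩ := AK.abs_main cs hinj ω hnodup hall k
    exact ⟨h1, h3, AK.abs_pure cs hinj ω hnodup hall k⟩
  · exact ⟨fun w => AK.absLen_attained cs k w, (AK.abs_main cs hinj ω hnodup hall k).2.1⟩

end Pool.Agent.Results.MP_20db89_co.BothIntervalsShellable
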